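import Pool.Agent.H331R3.HCHalf
import Pool.Agent.Helper879.ECD.Tutte

/-! Project RG (MP_b47bfb_co): Hadwiger's conjecture for graphs in which every vertex has at least
`d ≥ 1` and at most `D` non-neighbours, `19600 * D ^ 5 ≤ d ^ 2 * n ^ 2` (for example all regular
graphs on `n` vertices of degree at least `n - n ^ (2 / 3) / 27`).  Statements of the parts. -/

set_option autoImplicit false

namespace Pool.Agent.W292.RG

open Finset H331HC Pool.Agent.Helper879.ECD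

/-- number of non-neighbours of `x` (other than `x`) -/
noncomputable def ndeg {V : Type} (G : SimpleGraph V) (x : V) : ℕ := {y | Gᶜ.Adj x y}.ncard

/-- P: conflict free perfect pairing of `W`, all pairs edges of `G` with property `P`. -/
def St_P : Prop := ∀ (V : Type) [Fintype V] [DecidableEq V] (G : SimpleGraph V) (W : Finset V)
  (D r b : ℕ) (P : V → V → Prop) [DecidableRel P],
  (∀ x, ndeg G x ≤ D) → r * r ≤ D → D < (r + 1) * (r + 1) → Even W.card →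
  (∀ x y, P x y → P y x) →
  (∀ x ∈ W, (W.filter (fun y => ¬ P x y)).card ≤ b) →
  2 * (b + 1 + D + D * (r + 1) + D * r) ≤ W.card →
  ∃ f : V → V, (∀ x, f (f x) = x) ∧ (∀ x, x ∉ W → f x = x) ∧
    (∀ x ∈ W, f x ∈ W ∧ x ≠ f x ∧ G.Adj x (f x) ∧ P x (f x)) ∧
    (∀ x ∈ W, ∀ y ∈ W, ¬ QQ Gᶜ x (f x) y (f y))

/-- M0: a clique minor from a set `X` of single vertices and an involution on `W`. -/
def St_M0 : Prop := ∀ (V : Type) [Fintype V] [DecidableEq V] (G : SimpleGraph V)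
  (X W : Finset V) (f : V → V),
  Disjoint X W → (∀ x ∈ W, f x ∈ W) → (∀ x ∈ W, f (f x) = x) → (∀ x ∈ W, G.Adj x (f x)) →
  (∀ s ∈ X, ∀ t ∈ X, s ≠ t → G.Adj s t) →
  (∀ x ∈ W, ∀ s ∈ X, ¬ (Gᶜ.Adj x s ∧ Gᶜ.Adj (f x) s)) →
  (∀ x ∈ W, ∀ y ∈ W, ¬ QQ Gᶜ x (f x) y (f y)) →
  ∀ k : ℕ, 2 * k = 2 * X.card + W.card → KMinor G k

/-- M1: no class contains more than half of `W`. -/
def St_M1 : Prop := ∀ (V ι : Type) [Fintype V] [DecidableEq V] [DecidableEq ι]
  (G : SimpleGraph V) (c : V → ι) (X W : Finset V),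
  Disjoint X W →
  (∀ x ∈ X ∪ W, ∀ y ∈ X ∪ W, x ≠ y → ¬ G.Adj x y → c x = c y) →
  (∀ s ∈ X, ∀ t ∈ X, c s = c t → s = t) →
  (∀ x ∈ W, 2 * (W.filter (fun y => c y = c x)).card ≤ W.card) →
  ∀ k : ℕ, 2 * k = 2 * X.card + W.card → KMinor G k

/-- SEL: an invariant subset of given even size. -/
def St_SEL : Prop := ∀ (V : Type) [Fintype V] [DecidableEq V] (W : Finset V) (f : V → V),
  (∀ x ∈ W, f x ∈ W ∧ f x ≠ x ∧ f (f x) = x) →
  ∀ m : ℕ, Even m → m ≤ W.card → ∃ P : Finset V, P ⊆ W ∧ P.card = m ∧ ∀ x ∈ P, f x ∈ P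

/-- M2: one large class `N₁`, completely joined to `X ∪ Y`. -/
def St_M2 : Prop := ∀ (V : Type) [Fintype V] [DecidableEq V] (G : SimpleGraph V)
  (N₁ X Y : Finset V) (D r : ℕ),
  1 ≤ r → r * r ≤ D → D < (r + 1) * (r + 1) → (∀ x, ndeg G x ≤ D) →
  13 * (D * r) ≤ N₁.card → Disjoint N₁ X → Disjoint N₁ Y → Disjoint X Y →
  (∀ s ∈ X, ∀ t ∈ X, s ≠ t → G.Adj s t) →
  (∀ x ∈ N₁, ∀ y ∈ X ∪ Y, G.Adj x y) →
  Even Y.card → Y.card ≤ N₁.card →
  ∀ k : ℕ, 2 * k = 2 * X.card + Y.card + N₁.card + N₁.card % 2 → KMinor G k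

/-- M3: few vertices outside `S`, many vertices in `A`. -/
def St_M3 : Prop := ∀ (V : Type) [Fintype V] [DecidableEq V] (G : SimpleGraph V)
  (S W₀ A : Finset V) (D r : ℕ),
  1 ≤ r → r * r ≤ D → D < (r + 1) * (r + 1) → (∀ x, ndeg G x ≤ D) →
  Disjoint S W₀ → Disjoint S A → Disjoint W₀ A →
  (∀ s ∈ S, ∀ t ∈ S ∪ W₀, s ≠ t → G.Adj s t) →
  W₀.card + 3 + 4 * D + 4 * (D * r) ≤ A.card →
  KMinor G (S.card + W₀.card)

/-- TB1: Tutte-Berge from Tutte's theorem (add `t` universal vertices). -/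
def St_TB1 : Prop := ∀ (V : Type) [Fintype V] [DecidableEq V] (H : SimpleGraph V) (t : ℕ),
  Even (Fintype.card V + t) →
  (∀ A : Set V, {Z | OddComp H A Z}.ncard ≤ A.ncard + t) →
  ∃ g : V → V, (∀ x, g (g x) = x) ∧ (∀ x, g x ≠ x → H.Adj x (g x)) ∧
    (univ.filter (fun x => g x = x)).card ≤ t

/-- TB2: the colouring by a matching of the complement attaining the Tutte-Berge bound. -/
def St_TB2 : Prop := ∀ (V : Type) [Fintype V] [DecidableEq V] (G : SimpleGraph V),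
  ∃ (A : Set V) (s : ℕ), 2 * s + A.ncard = Fintype.card V + {Z | OddComp Gᶜ A Z}.ncard ∧
    G.Colorable s

/-- REP: one vertex from every odd component of `Gᶜ - A`.  The class of a vertex outside `A` is
`{y | (off Gᶜ A).Reachable x y}`. -/
def St_REP : Prop := ∀ (V : Type) [Fintype V] [DecidableEq V] (G : SimpleGraph V) (A : Set V),
  ∃ X : Finset V, (∀ x ∈ X, x ∉ A) ∧ X.card = {Z | OddComp Gᶜ A Z}.ncard ∧
    (∀ x ∈ X, Odd {y | (off Gᶜ A).Reachable x y}.ncard) ∧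
    (∀ s ∈ X, ∀ t ∈ X, (off Gᶜ A).Reachable s t → s = t) ∧
    (∀ x, x ∉ A → Odd {y | (off Gᶜ A).Reachable x y}.ncard →
      ∃ s ∈ X, (off Gᶜ A).Reachable x s)

/-- CLS: counting in a partition.  If every class of `X ∪ W` meets `X` in at most one vertex and
every vertex of `X` that is not alone in its class has at least two vertices of `W` in its class,
then the vertices which are not alone are at most `3 / 2 * |W|` many. -/
def St_CLS : Prop := ∀ (V ι : Type) [Fintype V] [DecidableEq V] [DecidableEq ι]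
  (c : V → ι) (X W : Finset V),
  Disjoint X W → (∀ s ∈ X, ∀ t ∈ X, c s = c t → s = t) →
  (∀ s ∈ X, (∃ y ∈ W, c y = c s) → 2 ≤ (W.filter (fun y => c y = c s)).card) →
  2 * ((X ∪ W).filter (fun x => ∃ y ∈ X ∪ W, y ≠ x ∧ c y = c x)).card ≤ 3 * W.card

/-- DC: double counting of the edges of `Gᶜ` between `S` and `A`. -/
def St_DC : Prop := ∀ (V : Type) [Fintype V] [DecidableEq V] (G : SimpleGraph V)
  (S A : Finset V) (d D : ℕ),
  (∀ x, d ≤ ndeg G x ∧ ndeg G x ≤ D) → Disjoint S A →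
  (∀ x ∈ S, ∀ y, Gᶜ.Adj x y → y ∈ A) → d * S.card ≤ D * A.card

/-- AR: the arithmetic of the last case. -/
def St_AR : Prop := ∀ (d D r n a s w : ℕ), 1 ≤ d → d ≤ D → 1 ≤ r → r * r ≤ D →
  19600 * D ^ 5 ≤ d ^ 2 * n ^ 2 → n = a + s + w → d * s ≤ D * a → w < 39 * (D * r) →
  w + 3 + 4 * D + 4 * (D * r) ≤ a

/-- MAIN: the clique minor. -/
def St_MAIN : Prop := ∀ (V : Type) [Fintype V] [DecidableEq V] (G : SimpleGraph V) (d D : ℕ),
  1 ≤ d → (∀ x, d ≤ ndeg G x ∧ ndeg G x ≤ D) → 19600 * D ^ 5 ≤ d ^ 2 * Fintype.card V ^ 2 →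
  ∀ (A : Set V) (s : ℕ), 2 * s + A.ncard = Fintype.card V + {Z | OddComp Gᶜ A Z}.ncard →
    KMinor G s

end Pool.Agent.W292.RG
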