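import Pool.Agent.W292.RG.All0
import Pool.Agent.W22.RGM0

set_option autoImplicit false

namespace Pool.Agent.W292.RG

open H331HC

theorem final (V : Type) [Fintype V] (G : SimpleGraph V)
    (d D : ℕ) (hd : 1 ≤ d) (hdeg : ∀ x ∈ nondom G, d ≤ ndeg G x ∧ ndeg G x ≤ D)
    (hn : 19600 * D ^ 5 ≤ d ^ 2 * (nondom G).ncard ^ 2) (k : ℕ) (hk : ¬ G.Colorable k) :
    KMinor G (k + 1) :=
  final0 Pool.Agent.W22.RGM0.M0 V G d D hd hdeg hn k hk

end Pool.Agent.W292.RG
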