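import Pool.Agent.W292.RG.Fin
import Pool.Agent.W287.RG.AR
import Pool.Agent.W398.RG.M3
import Pool.Agent.W45.RG.Sel
import Pool.Agent.W460.RG.REP
import Pool.Agent.W538.RG.P
import Pool.Agent.W565.RG.M1
import Pool.Agent.W790.RG.TB1
import Pool.Agent.W880.RG.TB2
import Pool.Agent.W883.RG.M2
import Pool.Agent.W988.RG.CLS
import Pool.Agent.W997.RG.DC

set_option autoImplicit false

namespace Pool.Agent.W292.RG

open H331HC

theorem final0 (hM0 : St_M0) (V : Type) [Fintype V] (G : SimpleGraph V)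
    (d D : ℕ) (hd : 1 ≤ d) (hdeg : ∀ x ∈ nondom G, d ≤ ndeg G x ∧ ndeg G x ≤ D)
    (hn : 19600 * D ^ 5 ≤ d ^ 2 * (nondom G).ncard ^ 2) (k : ℕ) (hk : ¬ G.Colorable k) :
    KMinor G (k + 1) :=
  had_dom (Pool.Agent.W880.RG.TB2 Pool.Agent.W790.RG.TB1)
    (MAIN (Pool.Agent.W565.RG.M1 hM0)
      (Pool.Agent.W883.RG.M2 Pool.Agent.W538.RG.P hM0 Pool.Agent.W45.RG.SEL)
      (Pool.Agent.W398.RG.M3 Pool.Agent.W538.RG.P hM0) Pool.Agent.W460.RG.REP
      Pool.Agent.W988.RG.CLS Pool.Agent.W997.RG.DC Pool.Agent.W287.RG.AR) V G d D hd hdeg hn k hk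

end Pool.Agent.W292.RG
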