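import Pool.Agent.W292.RG.Stm

/-! Project RG: removing dominating vertices. -/

set_option autoImplicit false

namespace Pool.Agent.W292.RG

open Finset H331HC Pool.Agent.Helper879.ECD

/-- The vertices with at least one non-neighbour. -/
def nondom {V : Type} (G : SimpleGraph V) : Set V := {x | ∃ y, x ≠ y ∧ ¬ G.Adj x y}

theorem dom {V : Type} [Fintype V] (G : SimpleGraph V)
    (h : ∀ k : ℕ, ¬ (G.induce (nondom G)).Colorable k → KMinor (G.induce (nondom G)) (k + 1)) :
    ∀ k : ℕ, ¬ G.Colorable k → KMinor G (k + 1) := by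
  classical
  intro k hk
  set M := nondom G with hM
  have hdom : ∀ x, x ∉ M → ∀ y, x ≠ y → G.Adj x y := by
    intro x hx y hxy
    by_contra hn
    exact hx ⟨y, hxy, hn⟩
  have hMc : Fintype.card (↥(Mᶜ : Set V)) ≤ k ∨ k + 1 ≤ Fintype.card (↥(Mᶜ : Set V)) := by omega
  rcases hMc with hu | hu
  · have h1 : ¬ (G.induce M).Colorable (k - Fintype.card (↥(Mᶜ : Set V))) := by
      rintro ⟨C⟩
      apply hk
      let C' : V → Fin (k - Fintype.card (↥(Mᶜ : Set V))) ⊕ (↥(Mᶜ : Set V)) := fun x =>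
        if hx : x ∈ M then Sum.inl (C ⟨x, hx⟩) else Sum.inr ⟨x, hx⟩
      have hC : ∀ {x y : V}, G.Adj x y → C' x ≠ C' y := by
        intro x y hxy heq
        simp only [C'] at heq
        split_ifs at heq with h1 h2 h2
        · exact C.valid (v := ⟨x, h1⟩) (w := ⟨y, h2⟩) hxy (Sum.inl_injective heq)
        · have := Sum.inr_injective heq
          exact hxy.ne (congrArg Subtype.val this)
      have h2 := (SimpleGraph.Coloring.mk C' hC).colorable
      rw [Fintype.card_sum, Fintype.card_fin] at h2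
      refine h2.mono ?_
      omega
    obtain ⟨f, hf1, hf2, hf3⟩ := h _ h1
    have hc := KMinor.of_family G (ι := Fin (k - Fintype.card (↥(Mᶜ : Set V)) + 1) ⊕ (↥(Mᶜ : Set V)))
      (fun i => Sum.elim (fun i => Subtype.val '' (f i)) (fun x => {x.1}) i) ?_ ?_ ?_
    · refine hc.mono ?_
      rw [Fintype.card_sum, Fintype.card_fin]
      omega
    · rintro (i | x)
      · simp only [Sum.elim_inl]
        refine SimpleGraph.Connected.map (G := (G.induce M).induce (f i))
          (f := ⟨fun x => ⟨x.1.1, ⟨x.1, x.2, rfl⟩⟩, fun {a b} hab => hab⟩) ?_ (hf1 i)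
        rintro ⟨_, ⟨y, hy, rfl⟩⟩
        exact ⟨⟨y, hy⟩, rfl⟩
      · exact connected_single G x.1
    · rintro (i | x) (j | y) hij
      · simp only [Sum.elim_inl]
        have := hf2 i j (fun h => hij (by rw [h]))
        rw [Set.disjoint_left] at this ⊢
        rintro _ ⟨a, ha, rfl⟩ ⟨b, hb, hab⟩
        have hab' : b = a := Subtype.ext hab
        exact this ha (hab' ▸ hb)
      · simp only [Sum.elim_inl, Sum.elim_inr]
        rw [Set.disjoint_singleton_right]
        rintro ⟨a, ha, hay⟩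
        exact y.2 (hay ▸ a.2)
      · simp only [Sum.elim_inl, Sum.elim_inr]
        rw [Set.disjoint_singleton_left]
        rintro ⟨a, ha, hay⟩
        exact x.2 (hay ▸ a.2)
      · simp only [Sum.elim_inr]
        rw [Set.disjoint_singleton]
        intro h
        exact hij (congrArg _ (Subtype.ext h))
    · rintro (i | x) (j | y) hij
      · obtain ⟨u, hu', v, hv, huv⟩ := hf3 i j (fun h => hij (by rw [h]))
        exact ⟨u.1, ⟨u, hu', rfl⟩, v.1, ⟨v, hv, rfl⟩, huv⟩
      · have hne : (f i).Nonempty := by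
          have := (hf1 i).nonempty
          exact ⟨_, this.some.2⟩
        obtain ⟨a, ha⟩ := hne
        refine ⟨a.1, ⟨a, ha, rfl⟩, y.1, rfl, ?_⟩
        exact (hdom y.1 y.2 a.1 (fun h => y.2 (h ▸ a.2))).symm
      · have hne : (f j).Nonempty := by
          have := (hf1 j).nonempty
          exact ⟨_, this.some.2⟩
        obtain ⟨a, ha⟩ := hne
        refine ⟨x.1, rfl, a.1, ⟨a, ha, rfl⟩, ?_⟩
        exact hdom x.1 x.2 a.1 (fun h => x.2 (h ▸ a.2))
      · refine ⟨x.1, rfl, y.1, rfl, ?_⟩
        exact hdom x.1 x.2 y.1 (fun h => hij (congrArg _ (Subtype.ext h)))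
  · have hc := KMinor.of_family G (ι := (↥(Mᶜ : Set V))) (fun x => {x.1}) ?_ ?_ ?_
    · exact hc.mono hu
    · intro x
      exact connected_single G x.1
    · intro x y hxy
      rw [Set.disjoint_singleton]
      intro h
      exact hxy (Subtype.ext h)
    · intro x y hxy
      exact ⟨x.1, rfl, y.1, rfl, hdom x.1 x.2 y.1 (fun h => hxy (Subtype.ext h))⟩

/-- non-degrees do not change when dominating vertices are removed -/
theorem ndeg_induce {V : Type} [Fintype V] (G : SimpleGraph V) (x : ↥(nondom G)) :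
    ndeg (G.induce (nondom G)) x = ndeg G x.1 := by
  unfold ndeg
  rw [← Set.ncard_image_of_injective _ (Subtype.val_injective (p := fun x => x ∈ nondom G))]
  congr 1
  ext y
  constructor
  · rintro ⟨a, ha, rfl⟩
    have ha' : (G.induce (nondom G))ᶜ.Adj x a := ha
    rw [SimpleGraph.compl_adj] at ha'
    show Gᶜ.Adj x.1 a.1
    rw [SimpleGraph.compl_adj]
    exact ⟨fun h => ha'.1 (Subtype.ext h), ha'.2⟩
  · intro hy
    have hy' : Gᶜ.Adj x.1 y := hy
    rw [SimpleGraph.compl_adj] at hy'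
    have hyM : y ∈ nondom G := ⟨x.1, hy'.1.symm, fun h => hy'.2 h.symm⟩
    refine ⟨⟨y, hyM⟩, ?_, rfl⟩
    show (G.induce (nondom G))ᶜ.Adj x ⟨y, hyM⟩
    rw [SimpleGraph.compl_adj]
    exact ⟨fun h => hy'.1 (congrArg Subtype.val h), hy'.2⟩

end Pool.Agent.W292.RG
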