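import Pool.Agent.W292.RG.Main
import Pool.Agent.W292.RG.Dom

/-! Project RG: the final theorem from `St_TB2` and `St_MAIN`. -/

set_option autoImplicit false

namespace Pool.Agent.W292.RG

open Finset H331HC Pool.Agent.Helper879.ECD

theorem had (hTB : St_TB2) (hMAIN : St_MAIN) (V : Type) [Fintype V] (G : SimpleGraph V) (d D : ℕ)
    (hd : 1 ≤ d) (hdeg : ∀ x, d ≤ ndeg G x ∧ ndeg G x ≤ D)
    (hn : 19600 * D ^ 5 ≤ d ^ 2 * Fintype.card V ^ 2) (k : ℕ) (hk : ¬ G.Colorable k) :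
    KMinor G (k + 1) := by
  classical
  obtain ⟨A, s, hs, hcol⟩ := hTB V G
  refine (hMAIN V G d D hd hdeg hn A s hs).mono ?_
  by_contra h
  exact hk (hcol.mono (by omega))

theorem had_dom (hTB : St_TB2) (hMAIN : St_MAIN) (V : Type) [Fintype V] (G : SimpleGraph V)
    (d D : ℕ) (hd : 1 ≤ d) (hdeg : ∀ x ∈ nondom G, d ≤ ndeg G x ∧ ndeg G x ≤ D)
    (hn : 19600 * D ^ 5 ≤ d ^ 2 * (nondom G).ncard ^ 2) (k : ℕ) (hk : ¬ G.Colorable k) :
    KMinor G (k + 1) := by
  classical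
  refine dom G ?_ k hk
  intro k' hk'
  refine had hTB hMAIN _ (G.induce (nondom G)) d D hd ?_ ?_ k' hk'
  · intro x
    rw [ndeg_induce]
    exact hdeg x.1 x.2
  · have : Fintype.card ↥(nondom G) = (nondom G).ncard := by
      rw [Set.ncard_eq_toFinset_card', Set.toFinset_card]
    rw [this]
    exact hn

end Pool.Agent.W292.RG
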