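import Pool.Agent.W292.RG.Stm

/-! Project RG: the clique minor from the parts. -/

set_option autoImplicit false

namespace Pool.Agent.W292.RG

open Finset H331HC Pool.Agent.Helper879.ECD

theorem MAIN (hM1 : St_M1) (hM2 : St_M2) (hM3 : St_M3) (hREP : St_REP) (hCLS : St_CLS)
    (hDC : St_DC) (hAR : St_AR) : St_MAIN := by
  intro V _ _ G d D hd hdeg hn A s hs
  classical
  obtain ⟨X, hXA, hXc, hXodd, hXinj, hXrep⟩ := hREP V G A
  have hfin : ∀ x : V, {y | (off Gᶜ A).Reachable x y}.Finite := fun x => Set.toFinite _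
  let c : V → Finset V := fun x => (hfin x).toFinset
  have hcmem : ∀ x y, y ∈ c x ↔ (off Gᶜ A).Reachable x y := by
    intro x y
    simp [c]
  have hcard : ∀ x, (c x).card = {y | (off Gᶜ A).Reachable x y}.ncard := by
    intro x
    rw [Set.ncard_eq_toFinset_card _ (hfin x)]
  have hceq : ∀ x y, c x = c y ↔ (off Gᶜ A).Reachable x y := by
    intro x y
    constructor
    · intro h
      have : y ∈ c x := by rw [h, hcmem]
      exact (hcmem _ _).1 this
    · intro h
      ext z
      rw [hcmem, hcmem]
      exact ⟨fun h' => h.symm.trans h', fun h' => h.trans h'⟩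
  set Af : Finset V := univ.filter (fun x => x ∈ A) with hAf
  set N : Finset V := univ.filter (fun x => x ∉ A) with hN
  set W : Finset V := N \ X with hW
  have hXN : X ⊆ N := by
    intro x hx
    rw [hN, mem_filter]
    exact ⟨mem_univ _, hXA x hx⟩
  have hAc : A.ncard = Af.card := by
    rw [Set.ncard_eq_toFinset_card']
    congr 1
    ext x
    simp [hAf]
  have hAN : Af.card + N.card = Fintype.card V := by
    rw [hAf, hN, ← Finset.card_univ]
    exact Finset.card_filter_add_card_filter_not (s := univ) (fun x => x ∈ A)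
  have hNW : W.card + X.card = N.card := by
    rw [hW]
    exact Finset.card_sdiff_add_card_eq_card hXN
  have hXW : X ∪ W = N := by
    rw [hW]
    exact Finset.union_sdiff_of_subset hXN
  have hdXW : Disjoint X W := by
    rw [hW]
    exact disjoint_sdiff
  have h2s : 2 * s = 2 * X.card + W.card := by
    omega
  -- adjacency outside classes
  have hadj : ∀ x ∈ N, ∀ y ∈ N, x ≠ y → ¬ G.Adj x y → c x = c y := by
    intro x hx y hy hxy hn'
    rw [hceq]
    refine SimpleGraph.Adj.reachable ?_
    rw [hN, mem_filter] at hx hy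
    exact ⟨(SimpleGraph.compl_adj G _ _).2 ⟨hxy, hn'⟩, hx.2, hy.2⟩
  have hcN : ∀ x ∈ N, ∀ y ∈ c x, y ∈ N := by
    intro x hx y hy
    rw [hN, mem_filter] at hx ⊢
    exact ⟨mem_univ _, off_reach_notMem hx.2 ((hcmem _ _).1 hy)⟩
  have hcfil : ∀ x ∈ N, N.filter (fun y => c y = c x) = c x := by
    intro x hx
    ext y
    rw [mem_filter, hceq, hcmem]
    constructor
    · rintro ⟨_, h⟩
      exact h.symm
    · intro h
      exact ⟨hcN x hx y ((hcmem _ _).2 h), h.symm⟩
  have hsplit : ∀ x ∈ N, (X.filter (fun y => c y = c x)).card +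
      (W.filter (fun y => c y = c x)).card = (c x).card := by
    intro x hx
    have h1 : (c x).card = ((X ∪ W).filter (fun y => c y = c x)).card := by
      rw [hXW, hcfil x hx]
    rw [h1, filter_union, card_union_of_disjoint (Finset.disjoint_filter_filter hdXW)]
  have hX01 : ∀ x ∈ N, (X.filter (fun y => c y = c x)).card = (c x).card % 2 := by
    intro x hx
    rcases Nat.even_or_odd (c x).card with he | ho
    · rw [Nat.even_iff.1 he, card_eq_zero, filter_eq_empty_iff]
      intro t ht h
      have h1 := hXodd t ht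
      rw [← hcard, h] at h1
      exact (Nat.not_even_iff_odd.2 h1) he
    · rw [Nat.odd_iff.1 ho, card_eq_one]
      have hxA : x ∉ A := by
        rw [hN, mem_filter] at hx
        exact hx.2
      have ho' := ho
      rw [hcard] at ho'
      obtain ⟨t, ht, htr⟩ := hXrep x hxA ho'
      refine ⟨t, ?_⟩
      ext z
      rw [mem_filter, mem_singleton]
      constructor
      · rintro ⟨hz, hzc⟩
        refine hXinj z hz t ht ?_
        exact ((hceq _ _).1 hzc).trans htr
      · rintro rfl
        exact ⟨ht, ((hceq _ _).2 htr).symm⟩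
  have hXinj' : ∀ a ∈ X, ∀ b ∈ X, c a = c b → a = b := fun a ha b hb h =>
    hXinj a ha b hb ((hceq _ _).1 h)
  by_cases hI : ∀ x ∈ W, 2 * (W.filter (fun y => c y = c x)).card ≤ W.card
  · refine hM1 V (Finset V) G c X W hdXW ?_ hXinj' hI s h2s
    rw [hXW]
    exact hadj
  push Not at hI
  obtain ⟨x₁, hx₁W, hx₁⟩ := hI
  have hWN : W ⊆ N := by rw [hW]; exact sdiff_subset
  have hx₁N : x₁ ∈ N := hWN hx₁W
  have hdD : d ≤ D := (hdeg x₁).1.trans (hdeg x₁).2
  have hD1 : 1 ≤ D := hd.trans hdD
  set r := Nat.sqrt D with hr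
  have hr0 : 1 ≤ r := Nat.sqrt_pos.2 hD1
  have hr1 : r * r ≤ D := Nat.sqrt_le D
  have hr2 : D < (r + 1) * (r + 1) := Nat.lt_succ_sqrt D
  have e1 := hsplit x₁ hx₁N
  have e2 := hX01 x₁ hx₁N
  have e3 : (X.filter (fun y => c y = c x₁)).card + (X.filter (fun y => ¬ c y = c x₁)).card =
      X.card := Finset.card_filter_add_card_filter_not _
  have e4 : (W.filter (fun y => c y = c x₁)).card + (W.filter (fun y => ¬ c y = c x₁)).card =
      W.card := Finset.card_filter_add_card_filter_not _
  have hself : ∀ y ∈ c x₁, c y = c x₁ := by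
    intro y hy
    rw [hceq]
    exact ((hcmem _ _).1 hy).symm
  by_cases h13 : 13 * (D * r) ≤ (c x₁).card
  · refine hM2 V G (c x₁) (X.filter (fun y => ¬ c y = c x₁)) (W.filter (fun y => ¬ c y = c x₁))
      D r hr0 hr1 hr2 (fun x => (hdeg x).2) h13 ?_ ?_ ?_ ?_ ?_ ?_ ?_ s ?_
    · rw [Finset.disjoint_left]
      intro y hy hy'
      exact (mem_filter.1 hy').2 (hself y hy)
    · rw [Finset.disjoint_left]
      intro y hy hy'
      exact (mem_filter.1 hy').2 (hself y hy)
    · exact disjoint_filter_filter hdXW
    · intro a ha b hb hab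
      rw [mem_filter] at ha hb
      by_contra h
      exact hab (hXinj' a ha.1 b hb.1 (hadj a (hXN ha.1) b (hXN hb.1) hab h))
    · intro x hx y hy
      have hyN : y ∈ N ∧ ¬ c y = c x₁ := by
        rw [mem_union, mem_filter, mem_filter] at hy
        rcases hy with hy | hy
        · exact ⟨hXN hy.1, hy.2⟩
        · exact ⟨hWN hy.1, hy.2⟩
      by_contra h
      have hne : x ≠ y := by
        rintro rfl
        exact hyN.2 (hself x hx)
      have := hadj x (hcN x₁ hx₁N x hx) y hyN.1 hne h
      exact hyN.2 (this.symm.trans (hself x hx))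
    · rw [Nat.even_iff]
      omega
    · omega
    · omega
  · push Not at h13
    set W₀ : Finset V := (X ∪ W).filter (fun x => ∃ y ∈ X ∪ W, y ≠ x ∧ c y = c x) with hW₀
    have hcls : 2 * W₀.card ≤ 3 * W.card := by
      refine hCLS V (Finset V) c X W hdXW hXinj' ?_
      rintro t ht ⟨y, hy, hyc⟩
      have e5 := hsplit t (hXN ht)
      have e6 := hX01 t (hXN ht)
      have e7 : 0 < (W.filter (fun y => c y = c t)).card :=
        card_pos.2 ⟨y, mem_filter.2 ⟨hy, hyc⟩⟩
      have e8 : 0 < (X.filter (fun y => c y = c t)).card :=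
        card_pos.2 ⟨t, mem_filter.2 ⟨ht, rfl⟩⟩
      omega
    have hW₀N : W₀ ⊆ N := by
      rw [hW₀, hXW]
      exact filter_subset _ _
    set S : Finset V := N \ W₀ with hS
    have hSN : S ⊆ N := sdiff_subset
    have hSW : S.card + W₀.card = N.card := by
      rw [hS]
      exact Finset.card_sdiff_add_card_eq_card hW₀N
    have halone : ∀ x ∈ S, ∀ y ∈ N, y ≠ x → c y ≠ c x := by
      intro x hx y hy hyx hc
      rw [hS, mem_sdiff] at hx
      apply hx.2
      rw [hW₀, hXW, mem_filter]
      exact ⟨hx.1, y, hy, hyx, hc⟩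
    have hSA : Disjoint S Af := by
      rw [Finset.disjoint_left]
      intro x hx hx'
      have := hSN hx
      rw [hN, mem_filter] at this
      rw [hAf, mem_filter] at hx'
      exact this.2 hx'.2
    have hWA : Disjoint W₀ Af := by
      rw [Finset.disjoint_left]
      intro x hx hx'
      have := hW₀N hx
      rw [hN, mem_filter] at this
      rw [hAf, mem_filter] at hx'
      exact this.2 hx'.2
    have hdc := hDC V G S Af d D hdeg hSA (by
      intro x hx y hxy
      by_contra hy
      have hyN : y ∈ N := by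
        rw [hN, mem_filter]
        refine ⟨mem_univ _, fun h => hy ?_⟩
        rw [hAf, mem_filter]
        exact ⟨mem_univ _, h⟩
      rw [SimpleGraph.compl_adj] at hxy
      exact halone x hx y hyN (Ne.symm hxy.1) (hadj x (hSN hx) y hyN hxy.1 hxy.2).symm)
    have har := hAR d D r (Fintype.card V) Af.card S.card W₀.card hd hdD hr0 hr1 hn (by omega)
      hdc (by omega)
    have hk := hM3 V G S W₀ Af D r hr0 hr1 hr2 (fun x => (hdeg x).2)
      (by rw [hS]; exact sdiff_disjoint) hSA hWA (by
        intro x hx y hy hxy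
        have hyN : y ∈ N := by
          rw [mem_union] at hy
          rcases hy with hy | hy
          · exact hSN hy
          · exact hW₀N hy
        by_contra h
        exact halone x hx y hyN hxy.symm (hadj x (hSN hx) y hyN hxy h).symm) har
    refine hk.mono ?_
    have : X.card ≤ N.card := card_le_card hXN
    omega

end Pool.Agent.W292.RG
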